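import Pool.Agent.Helper48_Loc.Defs

/-!
# An uncertainty principle for the lattice Laplacian

A function supported in a cube of radius `r` satisfies `‖ψ‖ ≤ 4 (r + 1)² ‖(E - Δ) ψ‖` for every
real `E` (a virial identity).
-/

set_option autoImplicit false
set_option linter.unusedSectionVars false

open scoped BigOperators

noncomputable section

namespace Pool.Agent.LE.H42F

open Pool.Agent.Anderson Pool.Agent.Loc

variable {d : ℕ}

/-- the lattice Laplacian on real functions -/
def Lp (ψ : Site d → ℝ) (x : Site d) : ℝ :=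
  ∑ i : Fin d, (ψ (x + Pi.single i 1) + ψ (x - Pi.single i 1))

theorem shift {b : Site d} {r : ℕ} {F : Site d → ℝ} (hF : ∀ x, r < sd b x → F x = 0)
    {t : Site d} (ht : sd 0 t ≤ 3) :
    ∑ x ∈ box b (r + 3), F (x + t) = ∑ x ∈ box b (r + 3), F x := by
  have h1 : ∑ᶠ x, F x = ∑ x ∈ box b (r + 3), F x := by
    refine finsum_eq_sum_of_support_subset _ fun x hx => ?_
    rw [Function.mem_support] at hx
    rw [Finset.mem_coe, mem_box]
    by_contra h
    exact hx (hF x (by omega))
  have h2 : ∑ᶠ x, F (x + t) = ∑ x ∈ box b (r + 3), F (x + t) := by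
    refine finsum_eq_sum_of_support_subset _ fun x hx => ?_
    rw [Function.mem_support] at hx
    rw [Finset.mem_coe, mem_box]
    by_contra h
    apply hx
    apply hF
    have h3 := sd_triangle b (x + t) x
    have h4 : sd (x + t) x = sd 0 t := by
      unfold sd
      congr 1
      funext i
      simp only [Pi.add_apply, Pi.zero_apply]
      rw [← Int.natAbs_neg]
      congr 1
      ring
    omega
  rw [← h1, ← h2]
  exact finsum_comp_equiv (Equiv.addRight t) (f := F)

theorem sd_single (i : Fin d) {c : ℤ} (hc : |c| ≤ 1) : sd (0 : Site d) (Pi.single i c) ≤ 1 := by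
  rw [sd_le_iff]
  intro j
  by_cases h : j = i
  · subst h; simpa using hc
  · simp [h]

theorem unc (i₀ : Fin d) {ψ : Site d → ℝ} {b : Site d} {r : ℕ}
    (hψ : ∀ x, r < sd b x → ψ x = 0) (E : ℝ) :
    ∑ x ∈ box b (r + 3), ψ x ^ 2 ≤
      16 * ((r : ℝ) + 1) ^ 4 * ∑ x ∈ box b (r + 3), (E * ψ x - Lp ψ x) ^ 2 := by
  set B := box b (r + 3) with hB
  set e : Site d := Pi.single i₀ 1 with he
  have hs : ∀ j : Fin d, sd (0 : Site d) (Pi.single j 1) ≤ 3 := fun j =>
    (sd_single j (by norm_num)).trans (by norm_num)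
  have hs' : ∀ j : Fin d, sd (0 : Site d) (-Pi.single j 1) ≤ 3 := fun j => by
    rw [← Pi.single_neg]
    exact (sd_single j (by norm_num)).trans (by norm_num)
  set w : Site d → ℝ := fun x => ((x i₀ - b i₀ : ℤ) : ℝ) with hw
  have hwe : ∀ x, w (x + e) = w x + 1 := by
    intro x
    simp only [hw, he, Pi.add_apply, Pi.single_eq_same]
    push_cast
    ring
  have hwe' : ∀ x, w (x + -e) = w x - 1 := by
    intro x
    simp only [hw, he, Pi.add_apply, Pi.neg_apply, Pi.single_eq_same]
    push_cast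
    ring
  have hwj : ∀ x (j : Fin d), j ≠ i₀ → w (x + Pi.single j 1) = w x := by
    intro x j hj
    simp only [hw, Pi.add_apply, Pi.single_eq_of_ne (Ne.symm hj), add_zero]
  have hwj' : ∀ x (j : Fin d), j ≠ i₀ → w (x + -Pi.single j 1) = w x := by
    intro x j hj
    simp only [hw, Pi.add_apply, Pi.neg_apply, Pi.single_eq_of_ne (Ne.symm hj), neg_zero, add_zero]
  set a : Site d → ℝ := fun x => ψ (x + e) with ha
  set c : Site d → ℝ := fun x => ψ (x + -e) with hc
  set P : Site d → ℝ := fun x => ∑ j ∈ Finset.univ.erase i₀,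
    (ψ (x + Pi.single j 1) + ψ (x + -Pi.single j 1)) with hP
  have hL : ∀ x, Lp ψ x = a x + c x + P x := by
    intro x
    unfold Lp
    rw [← Finset.add_sum_erase _ _ (Finset.mem_univ i₀)]
    simp only [ha, hc, hP, sub_eq_add_neg, he]
  -- the identities
  have I1 : ∑ x ∈ B, (w x + 1) * ψ x * a x = ∑ x ∈ B, w x * c x * ψ x := by
    rw [← shift (b := b) (r := r) (F := fun x => w x * c x * ψ x)
      (fun x hx => by rw [hψ x hx, mul_zero]) (hs i₀)]
    refine Finset.sum_congr rfl fun x _ => ?_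
    simp only [hc, ha]
    rw [← he, hwe]
    have : x + e + -e = x := by abel
    rw [this]
  have I2 : ∑ x ∈ B, w x * a x ^ 2 = ∑ x ∈ B, (w x - 1) * ψ x ^ 2 := by
    rw [← shift (b := b) (r := r) (F := fun x => (w x - 1) * ψ x ^ 2)
      (fun x hx => by rw [hψ x hx]; ring) (hs i₀)]
    refine Finset.sum_congr rfl fun x _ => ?_
    simp only [ha]
    rw [← he, hwe]
    ring
  have I3 : ∑ x ∈ B, w x * c x ^ 2 = ∑ x ∈ B, (w x + 1) * ψ x ^ 2 := by
    rw [← shift (b := b) (r := r) (F := fun x => (w x + 1) * ψ x ^ 2)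
      (fun x hx => by rw [hψ x hx]; ring) (hs' i₀)]
    refine Finset.sum_congr rfl fun x _ => ?_
    simp only [hc]
    rw [← he, hwe']
    ring
  have I4 : ∑ x ∈ B, a x ^ 2 = ∑ x ∈ B, ψ x ^ 2 :=
    shift (b := b) (r := r) (F := fun x => ψ x ^ 2) (fun x hx => by rw [hψ x hx]; ring) (hs i₀)
  have I5 : ∑ x ∈ B, c x ^ 2 = ∑ x ∈ B, ψ x ^ 2 :=
    shift (b := b) (r := r) (F := fun x => ψ x ^ 2) (fun x hx => by rw [hψ x hx]; ring) (hs' i₀)
  have I6 : ∑ x ∈ B, w x * c x * P x = ∑ x ∈ B, (w x + 1) * a x * P x := by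
    simp only [hP, Finset.mul_sum]
    rw [Finset.sum_comm, Finset.sum_comm (s := B)]
    refine Finset.sum_congr rfl fun j hj => ?_
    have hj' := Finset.ne_of_mem_erase hj
    have A1 : ∑ x ∈ B, w x * c x * ψ (x + Pi.single j 1) =
        ∑ x ∈ B, (w x + 1) * a x * ψ (x + -Pi.single j 1) := by
      have g1 := shift (b := b) (r := r) (F := fun x => (w x + 1) * ψ x *
        ψ (x + e + Pi.single j 1)) (fun x hx => by rw [hψ x hx]; ring) (hs' i₀)
      have g2 := shift (b := b) (r := r) (F := fun x => (w x + 1) * ψ x *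
        ψ (x + e + Pi.single j 1)) (fun x hx => by rw [hψ x hx]; ring) (hs' j)
      rw [← he] at g1
      rw [← g1] at g2
      refine (Eq.trans ?_ g2.symm).trans ?_
      · refine Finset.sum_congr rfl fun x _ => ?_
        simp only [hc]
        rw [hwe']
        have : x + -e + e + Pi.single j 1 = x + Pi.single j 1 := by abel
        rw [this]
        ring
      · refine Finset.sum_congr rfl fun x _ => ?_
        simp only [ha]
        rw [hwj' x j hj']
        have : x + -Pi.single j 1 + e + Pi.single j 1 = x + e := by abel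
        rw [this]
        ring
    have A2 : ∑ x ∈ B, w x * c x * ψ (x + -Pi.single j 1) =
        ∑ x ∈ B, (w x + 1) * a x * ψ (x + Pi.single j 1) := by
      have g1 := shift (b := b) (r := r) (F := fun x => (w x + 1) * ψ x *
        ψ (x + e + -Pi.single j 1)) (fun x hx => by rw [hψ x hx]; ring) (hs' i₀)
      have g2 := shift (b := b) (r := r) (F := fun x => (w x + 1) * ψ x *
        ψ (x + e + -Pi.single j 1)) (fun x hx => by rw [hψ x hx]; ring) (hs j)
      rw [← he] at g1
      rw [← g1] at g2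
      refine (Eq.trans ?_ g2.symm).trans ?_
      · refine Finset.sum_congr rfl fun x _ => ?_
        simp only [hc]
        rw [hwe']
        have : x + -e + e + -Pi.single j 1 = x + -Pi.single j 1 := by abel
        rw [this]
        ring
      · refine Finset.sum_congr rfl fun x _ => ?_
        simp only [ha]
        rw [hwj x j hj']
        have : x + Pi.single j 1 + e + -Pi.single j 1 = x + e := by abel
        rw [this]
        ring
    simp only [mul_add, Finset.sum_add_distrib]
    rw [A1, A2]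
    ring
  -- the virial identity
  set f : Site d → ℝ := fun x => E * ψ x - Lp ψ x with hf
  have key : ∑ x ∈ B, (w x * (a x - c x)) * f x + ∑ x ∈ B, a x * f x =
      (∑ x ∈ B, (a x - c x) ^ 2) / 2 := by
    have e1 : ∑ x ∈ B, (w x * (a x - c x)) * f x + ∑ x ∈ B, a x * f x =
        E * (∑ x ∈ B, (w x + 1) * ψ x * a x - ∑ x ∈ B, w x * c x * ψ x) -
        (∑ x ∈ B, w x * a x ^ 2 - ∑ x ∈ B, w x * c x ^ 2) +
        (∑ x ∈ B, w x * c x * P x - ∑ x ∈ B, (w x + 1) * a x * P x) -
        ∑ x ∈ B, a x ^ 2 - ∑ x ∈ B, a x * c x := by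
      simp only [Finset.mul_sum, ← Finset.sum_add_distrib, ← Finset.sum_sub_distrib]
      refine Finset.sum_congr rfl fun x _ => ?_
      simp only [hf]
      rw [hL]
      ring
    have e2 : ∑ x ∈ B, (a x - c x) ^ 2 =
        ∑ x ∈ B, a x ^ 2 + ∑ x ∈ B, c x ^ 2 - 2 * ∑ x ∈ B, a x * c x := by
      simp only [Finset.mul_sum, ← Finset.sum_add_distrib, ← Finset.sum_sub_distrib]
      refine Finset.sum_congr rfl fun x _ => ?_
      ring
    have e3 : ∑ x ∈ B, (w x + 1) * ψ x ^ 2 - ∑ x ∈ B, (w x - 1) * ψ x ^ 2 =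
        2 * ∑ x ∈ B, ψ x ^ 2 := by
      simp only [Finset.mul_sum, ← Finset.sum_sub_distrib]
      refine Finset.sum_congr rfl fun x _ => ?_
      ring
    rw [e1, e2, I1, I2, I3, I4, I5, I6]
    linarith
  -- weights
  have hwD : ∀ x, (w x * (a x - c x)) ^ 2 ≤ ((r : ℝ) + 1) ^ 2 * (a x - c x) ^ 2 := by
    intro x
    by_cases h : a x - c x = 0
    · rw [h]; simp
    have h1 : |w x| ≤ (r : ℝ) + 1 := by
      by_contra hcon
      push Not at hcon
      apply h
      have hbig : (r : ℤ) + 1 < |x i₀ - b i₀| := by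
        have : (((r : ℤ) + 1 : ℤ) : ℝ) < ((|x i₀ - b i₀| : ℤ) : ℝ) := by
          push_cast
          simpa [hw] using hcon
        exact_mod_cast this
      have h2 : a x = 0 := by
        apply hψ
        by_contra hle
        push Not at hle
        have := sd_le_iff.1 hle i₀
        simp only [he, Pi.add_apply, Pi.single_eq_same] at this
        rw [abs_le] at this
        rw [lt_abs] at hbig
        omega
      have h3 : c x = 0 := by
        apply hψ
        by_contra hle
        push Not at hle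
        have := sd_le_iff.1 hle i₀
        simp only [he, Pi.add_apply, Pi.neg_apply, Pi.single_eq_same] at this
        rw [abs_le] at this
        rw [lt_abs] at hbig
        omega
      rw [h2, h3, sub_zero]
    rw [mul_pow]
    apply mul_le_mul_of_nonneg_right _ (sq_nonneg _)
    rw [← sq_abs (w x)]
    exact pow_le_pow_left₀ (abs_nonneg _) h1 2
  set X := ∑ x ∈ B, ψ x ^ 2 with hX
  set Y := ∑ x ∈ B, (a x - c x) ^ 2 with hY
  set Z := ∑ x ∈ B, f x ^ 2 with hZ
  have hX0 : 0 ≤ X := Finset.sum_nonneg fun x _ => sq_nonneg _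
  have hY0 : 0 ≤ Y := Finset.sum_nonneg fun x _ => sq_nonneg _
  have hZ0 : 0 ≤ Z := Finset.sum_nonneg fun x _ => sq_nonneg _
  set R : ℝ := (r : ℝ) + 1 with hR
  have hR0 : 0 < R := by positivity
  have hWD : ∑ x ∈ B, (w x * (a x - c x)) ^ 2 ≤ R ^ 2 * Y := by
    rw [hY, Finset.mul_sum]
    exact Finset.sum_le_sum fun x _ => hwD x
  -- Poincare
  have hPo : X ≤ R ^ 2 * Y := by
    have p1 : ∑ x ∈ B, (w x * (a x - c x)) * (a x + c x) = -(2 * X) := by
      have e1 : ∑ x ∈ B, (w x * (a x - c x)) * (a x + c x) =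
          ∑ x ∈ B, w x * a x ^ 2 - ∑ x ∈ B, w x * c x ^ 2 := by
        rw [← Finset.sum_sub_distrib]
        refine Finset.sum_congr rfl fun x _ => ?_
        ring
      rw [e1, I2, I3, hX, Finset.mul_sum, ← Finset.sum_sub_distrib, ← Finset.sum_neg_distrib]
      refine Finset.sum_congr rfl fun x _ => ?_
      ring
    have p2 := Finset.sum_mul_sq_le_sq_mul_sq B (fun x => w x * (a x - c x)) (fun x => a x + c x)
    rw [p1] at p2
    have p3 : ∑ x ∈ B, (a x + c x) ^ 2 ≤ 4 * X := by
      have e1 : 4 * X = 2 * (∑ x ∈ B, a x ^ 2 + ∑ x ∈ B, c x ^ 2) := by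
        rw [I4, I5]; ring
      rw [e1, ← Finset.sum_add_distrib, Finset.mul_sum]
      refine Finset.sum_le_sum fun x _ => ?_
      nlinarith [sq_nonneg (a x - c x)]
    have p4 : (2 * X) ^ 2 ≤ R ^ 2 * Y * (4 * X) := by
      have e1 : (-(2 * X)) ^ 2 = (2 * X) ^ 2 := by ring
      rw [e1] at p2
      refine p2.trans ?_
      exact mul_le_mul hWD p3 (Finset.sum_nonneg fun x _ => sq_nonneg _) (by positivity)
    by_contra hcon
    push Not at hcon
    have hXpos : 0 < X := lt_of_le_of_lt (by positivity) hcon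
    nlinarith
  have hYZ : Y ≤ 16 * R ^ 2 * Z := by
    have q1 := Finset.sum_mul_sq_le_sq_mul_sq B (fun x => w x * (a x - c x)) f
    have q2 := Finset.sum_mul_sq_le_sq_mul_sq B a f
    rw [I4] at q2
    set s := ∑ x ∈ B, (w x * (a x - c x)) * f x with hs1
    set t := ∑ x ∈ B, a x * f x with ht1
    have q3 : s ^ 2 ≤ R ^ 2 * Y * Z := q1.trans (mul_le_mul_of_nonneg_right hWD hZ0)
    have q4 : t ^ 2 ≤ R ^ 2 * Y * Z := q2.trans (mul_le_mul_of_nonneg_right hPo hZ0)
    have q5 : (Y / 2) ^ 2 ≤ 4 * (R ^ 2 * Y * Z) := by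
      rw [← key]
      nlinarith [sq_nonneg (s - t)]
    by_contra hcon
    push Not at hcon
    have hYpos : 0 < Y := lt_of_le_of_lt (by positivity) hcon
    nlinarith
  calc X ≤ R ^ 2 * Y := hPo
    _ ≤ R ^ 2 * (16 * R ^ 2 * Z) := mul_le_mul_of_nonneg_left hYZ (by positivity)
    _ = 16 * R ^ 4 * Z := by ring

end Pool.Agent.LE.H42F
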