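import Pool.Agent.LE.StmtsW
import Pool.Agent.Helper42_LEF.UNC
import Pool.Agent.Helper48_Loc.Geom

/-!
# Deterministic conduction at weak disorder
-/

set_option autoImplicit false
set_option linter.unusedSectionVars false

open scoped BigOperators

noncomputable section

namespace Pool.Agent.LE.H42F

open Pool.Agent.Anderson Pool.Agent.Loc

variable {d : ℕ}

/-- the equation for the Green function -/
theorem gr_real {V : Site d → ℝ} {Λ : Finset (Site d)} {E : ℝ} (hdet : (RM V Λ E).det ≠ 0)
    {b x : Site d} (hb : b ∈ Λ) (hx : x ∈ Λ) (hx1 : box x 1 ⊆ Λ) :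
    E * gr V Λ E b x - Lp (fun y => gr V Λ E b y) x - V x * gr V Λ E b x =
      if b = x then 1 else 0 := by
  have h := gr_mul_rm hdet hb hx
  have h2 := sum_hop x Λ hx1 (fun y => gr V Λ E b y)
  unfold Lp
  rw [← h, ← h2]
  unfold rm
  have h3 : ∀ y ∈ Λ, gr V Λ E b y * ((if y = x then E - V y else 0) - hop y x) =
      (if y = x then gr V Λ E b x * (E - V x) else 0) - hop x y • gr V Λ E b y := by
    intro y _
    rw [hop_comm y x, smul_eq_mul]
    split_ifs with h4
    · rw [h4]; ring
    · ring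
  rw [Finset.sum_congr rfl h3, Finset.sum_sub_distrib, Finset.sum_ite_eq', if_pos hx]
  ring

/-- a plane wave -/
def pw (k : ℝ) (b : Site d) (x : Site d) : ℝ := ∏ i, Real.cos (k * ((x i : ℝ) - b i))

theorem pw_self (k : ℝ) (b : Site d) : pw k b b = 1 := by
  unfold pw
  simp

theorem pw_le (k : ℝ) (b x : Site d) : |pw k b x| ≤ 1 := by
  unfold pw
  rw [Finset.abs_prod]
  exact Finset.prod_le_one (fun i _ => abs_nonneg _) fun i _ => Real.abs_cos_le_one _

theorem pw_step (k : ℝ) (b x : Site d) (i : Fin d) :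
    pw k b (x + Pi.single i 1) + pw k b (x - Pi.single i 1) = 2 * Real.cos k * pw k b x := by
  unfold pw
  rw [← Finset.mul_prod_erase _ _ (Finset.mem_univ i),
    ← Finset.mul_prod_erase _ _ (Finset.mem_univ i),
    ← Finset.mul_prod_erase (Finset.univ) (fun i => Real.cos (k * ((x i : ℝ) - b i)))
      (Finset.mem_univ i)]
  have h1 : ∀ c : ℤ, ∏ j ∈ Finset.univ.erase i,
      Real.cos (k * (((x + Pi.single i c : Site d) j : ℝ) - b j)) =
      ∏ j ∈ Finset.univ.erase i, Real.cos (k * ((x j : ℝ) - b j)) := by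
    intro c
    refine Finset.prod_congr rfl fun j hj => ?_
    rw [Pi.add_apply, Pi.single_eq_of_ne (Finset.ne_of_mem_erase hj), add_zero]
  have h2 : x - Pi.single i 1 = x + Pi.single i (-1) := by
    rw [sub_eq_add_neg, ← Pi.single_neg]
  rw [h2, h1, h1]
  simp only [Pi.add_apply, Pi.single_eq_same]
  push_cast
  have e1 : k * ((x i : ℝ) + 1 - b i) = k * ((x i : ℝ) - b i) + k := by ring
  have e2 : k * ((x i : ℝ) + -1 - b i) = k * ((x i : ℝ) - b i) - k := by ring
  rw [e1, e2, Real.cos_add, Real.cos_sub]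
  ring

theorem pw_lap (k : ℝ) (b x : Site d) : Lp (pw k b) x = 2 * d * Real.cos k * pw k b x := by
  unfold Lp
  rw [Finset.sum_congr rfl fun i _ => pw_step k b x i, Finset.sum_const, Finset.card_univ,
    Fintype.card_fin, nsmul_eq_mul]
  ring

/-- summation by parts -/
theorem parts {b : Site d} {r : ℕ} {ψ : Site d → ℝ} (hψ : ∀ x, r < sd b x → ψ x = 0)
    (u : Site d → ℝ) :
    ∑ x ∈ box b (r + 3), u x * Lp ψ x = ∑ x ∈ box b (r + 3), Lp u x * ψ x := by
  unfold Lp
  simp only [Finset.mul_sum, Finset.sum_mul]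
  rw [Finset.sum_comm, Finset.sum_comm (s := box b (r + 3))]
  refine Finset.sum_congr rfl fun i _ => ?_
  have hs : sd (0 : Site d) (Pi.single i 1) ≤ 3 :=
    (sd_single i (by norm_num)).trans (by norm_num)
  have hs' : sd (0 : Site d) (-Pi.single i 1) ≤ 3 := by
    rw [← Pi.single_neg]
    exact (sd_single i (by norm_num)).trans (by norm_num)
  have g1 := shift (b := b) (r := r) (F := fun x => u (x - Pi.single i 1) * ψ x)
    (fun x hx => by rw [hψ x hx, mul_zero]) hs
  have g2 := shift (b := b) (r := r) (F := fun x => u (x + Pi.single i 1) * ψ x)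
    (fun x hx => by rw [hψ x hx, mul_zero]) hs'
  simp only [add_sub_cancel_right, neg_add_cancel_right] at g1 g2
  simp only [mul_add, add_mul, Finset.sum_add_distrib]
  simp only [sub_eq_add_neg] at g1 g2 ⊢
  rw [g1, g2]
  ring

theorem sq_one_add {a b A : ℝ} (h : a ^ 2 ≤ A) :
    (1 + a + b) ^ 2 ≤ 3 * (1 + A + b ^ 2) := by
  nlinarith [sq_nonneg (1 - a), sq_nonneg (1 - b), sq_nonneg (a - b)]

theorem sq_zero_add {a b A : ℝ} (h : a ^ 2 ≤ A) :
    (0 + a + b) ^ 2 ≤ 3 * (0 + A + b ^ 2) := by
  nlinarith [sq_nonneg (a - b), sq_nonneg a, sq_nonneg b]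

theorem cdd : CddStmt := by
  intro d E v V Λ b r hd hE hv hvr hV hΛ hdet
  by_contra hcon
  push Not at hcon
  have hd0 : (0 : ℝ) < d := by exact_mod_cast hd
  have hd1 : (1 : ℝ) ≤ d := by exact_mod_cast hd
  set n : ℝ := 2 * (r : ℝ) + 3 with hn
  have hn1 : 1 ≤ n := by
    have : (0 : ℝ) ≤ r := Nat.cast_nonneg r
    rw [hn]; linarith
  have hn0 : 0 < n := by linarith
  have hnd : 1 ≤ n ^ d := one_le_pow₀ hn1
  have hnd0 : 0 < n ^ d := by positivity
  set μ : ℝ := 1 / (16 * d * n ^ d) with hμ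
  have hμ0 : 0 < μ := by positivity
  have hg : ∀ y : Site d, (sd b y = r ∨ sd b y = r + 1) → |gr V Λ E b y| ≤ μ := by
    intro y hy
    have := hcon y hy
    rw [hμ, le_div_iff₀ (by positivity)]
    linarith
  have hbΛ : b ∈ Λ := hΛ (by rw [mem_box, sd_self]; exact Nat.zero_le _)
  set g : Site d → ℝ := fun y => gr V Λ E b y with hgdef
  set ψ : Site d → ℝ := fun x => if sd b x ≤ r then g x else 0 with hψdef
  have hψ : ∀ x, r < sd b x → ψ x = 0 := by
    intro x hx
    simp only [hψdef]
    rw [if_neg (by omega)]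
  set f : Site d → ℝ := fun x => E * ψ x - Lp ψ x with hf
  set e : Site d → ℝ := fun x => f x - (if b = x then 1 else 0) - V x * ψ x with he
  have hn1' : ∀ x : Site d, ∀ i : Fin d, sd x (x + Pi.single i 1) ≤ 1 ∧
      sd x (x - Pi.single i 1) ≤ 1 := fun x i => ⟨sd_add_single_le x i, sd_sub_single_le x i⟩
  have hsum : ∀ (F : Site d → ℝ) (x : Site d), (∀ y, sd x y ≤ 1 → |F y| ≤ μ) →
      |Lp F x| ≤ 2 * d * μ := by
    intro F x hF
    unfold Lp
    calc |∑ i : Fin d, (F (x + Pi.single i 1) + F (x - Pi.single i 1))|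
        ≤ ∑ i : Fin d, |F (x + Pi.single i 1) + F (x - Pi.single i 1)| :=
          Finset.abs_sum_le_sum_abs _ _
      _ ≤ ∑ _i : Fin d, 2 * μ := by
          refine Finset.sum_le_sum fun i _ => ?_
          have h1 := hF _ (hn1' x i).1
          have h2 := hF _ (hn1' x i).2
          have h3 := abs_add_le (F (x + Pi.single i 1)) (F (x - Pi.single i 1))
          linarith
      _ = 2 * d * μ := by
          rw [Finset.sum_const, Finset.card_univ, Fintype.card_fin, nsmul_eq_mul]
          ring
  have hLsub : ∀ (F F' : Site d → ℝ) (x : Site d), Lp (fun y => F y - F' y) x =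
      Lp F x - Lp F' x := by
    intro F F' x
    unfold Lp
    rw [← Finset.sum_sub_distrib]
    refine Finset.sum_congr rfl fun i _ => ?_
    ring
  have hebd : ∀ x, |e x| ≤ 2 * d * μ := by
    intro x
    by_cases hx : sd b x ≤ r
    · have hx1 : box x 1 ⊆ Λ := by
        intro y hy
        apply hΛ
        rw [mem_box] at hy ⊢
        have := sd_triangle b x y
        omega
      have hxΛ : x ∈ Λ := hx1 (by rw [mem_box, sd_self]; exact Nat.zero_le _)
      have h1 := gr_real hdet hbΛ hxΛ hx1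
      have h2 : ψ x = g x := by simp only [hψdef]; rw [if_pos hx]
      have h3 : e x = Lp (fun y => g y - ψ y) x := by
        rw [hLsub]
        simp only [he, hf]
        rw [h2]
        simp only [hgdef] at h1 ⊢
        linarith
      rw [h3]
      apply hsum
      intro y hy
      by_cases hyr : sd b y ≤ r
      · have : ψ y = g y := by simp only [hψdef]; rw [if_pos hyr]
        rw [this, sub_self, abs_zero]
        exact hμ0.le
      · have h4 := hψ y (by omega)
        rw [h4, sub_zero]
        apply hg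
        right
        have := sd_triangle b x y
        omega
    · push Not at hx
      have h2 := hψ x hx
      have h3 : b ≠ x := by
        rintro rfl
        rw [sd_self] at hx
        omega
      have h4 : e x = - Lp ψ x := by
        simp only [he, hf]
        rw [h2, if_neg h3]
        ring
      rw [h4, abs_neg]
      apply hsum
      intro y hy
      by_cases hyr : sd b y ≤ r
      · have h5 : ψ y = g y := by simp only [hψdef]; rw [if_pos hyr]
        rw [h5]
        apply hg
        left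
        have h6 := sd_triangle b y x
        rw [sd_comm y x] at h6
        omega
      · rw [hψ y (by omega), abs_zero]
        exact hμ0.le
  have he0 : ∀ x, r + 1 < sd b x → e x = 0 := by
    intro x hx
    have h2 := hψ x (by omega)
    have h3 : b ≠ x := by
      rintro rfl
      rw [sd_self] at hx
      omega
    have h5 : Lp ψ x = 0 := by
      unfold Lp
      refine Finset.sum_eq_zero fun i _ => ?_
      have a1 := sd_triangle b (x + Pi.single i 1) x
      have a2 := sd_triangle b (x - Pi.single i 1) x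
      have a3 := (hn1' x i).1
      have a4 := (hn1' x i).2
      rw [sd_comm] at a3 a4
      rw [hψ _ (by omega), hψ _ (by omega), add_zero]
    simp only [he, hf]
    rw [h2, if_neg h3, h5]
    ring
  set B := box b (r + 3) with hB
  have hB1 : box b (r + 1) ⊆ B := box_mono b (by omega)
  have hbB : b ∈ B := by rw [mem_box, sd_self]; exact Nat.zero_le _
  -- sums of e
  have hcard : ((box b (r + 1)).card : ℝ) = n ^ d := by
    rw [card_box]
    push_cast
    rw [hn]
    ring
  have hcard' : ((box b r).card : ℝ) ≤ n ^ d := by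
    rw [card_box]
    push_cast
    rw [hn]
    gcongr
    norm_num
  have hdμ : 2 * d * μ * n ^ d = 1 / 8 := by
    rw [hμ]
    field_simp
    norm_num
  have hdμ' : 2 * d * μ ≤ 1 / 8 := by
    rw [← hdμ]
    have : 0 ≤ 2 * d * μ := by positivity
    exact le_mul_of_one_le_right this hnd
  have hesum : ∑ x ∈ B, |e x| ≤ 1 / 8 := by
    have h1 : ∑ x ∈ B, |e x| = ∑ x ∈ box b (r + 1), |e x| := by
      symm
      refine Finset.sum_subset hB1 fun x _ hx => ?_
      rw [mem_box] at hx
      rw [he0 x (by omega), abs_zero]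
    rw [h1, ← hdμ]
    calc ∑ x ∈ box b (r + 1), |e x| ≤ ∑ _x ∈ box b (r + 1), 2 * d * μ :=
          Finset.sum_le_sum fun x _ => hebd x
      _ = 2 * d * μ * n ^ d := by
          rw [Finset.sum_const, nsmul_eq_mul, hcard]
          ring
  have hesq : ∑ x ∈ B, e x ^ 2 ≤ 1 / 64 := by
    calc ∑ x ∈ B, e x ^ 2 ≤ ∑ x ∈ B, (1 / 8) * |e x| := by
          refine Finset.sum_le_sum fun x _ => ?_
          have h1 := hebd x
          rw [← sq_abs, sq]
          exact mul_le_mul_of_nonneg_right (h1.trans hdμ') (abs_nonneg _)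
      _ = (1 / 8) * ∑ x ∈ B, |e x| := by rw [Finset.mul_sum]
      _ ≤ 1 / 64 := by linarith
  -- the square sum
  set X := ∑ x ∈ B, ψ x ^ 2 with hX
  have hX0 : 0 ≤ X := Finset.sum_nonneg fun x _ => sq_nonneg _
  have hVψ : ∀ x, |V x * ψ x| ≤ v * |ψ x| := by
    intro x
    rw [abs_mul]
    by_cases hx : sd b x ≤ r
    · exact mul_le_mul_of_nonneg_right (hV x (mem_box.2 hx)) (abs_nonneg _)
    · rw [hψ x (by omega)]; simp
  have hZ : ∑ x ∈ B, f x ^ 2 ≤ 3 * (1 + v ^ 2 * X + 1 / 64) := by
    have h1 : ∀ x ∈ B, f x ^ 2 ≤ 3 * ((if b = x then 1 else 0) + v ^ 2 * ψ x ^ 2 + e x ^ 2) := by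
      intro x _
      have h2 : f x = (if b = x then 1 else 0) + V x * ψ x + e x := by
        simp only [he]
        ring
      have h3 : (V x * ψ x) ^ 2 ≤ v ^ 2 * ψ x ^ 2 := by
        have := hVψ x
        rw [← sq_abs (V x * ψ x), ← sq_abs (ψ x), ← mul_pow]
        exact pow_le_pow_left₀ (abs_nonneg _) this 2
      rw [h2]
      split_ifs
      · exact sq_one_add h3
      · exact sq_zero_add h3
    refine (Finset.sum_le_sum h1).trans ?_
    rw [← Finset.mul_sum, Finset.sum_add_distrib, Finset.sum_add_distrib, Finset.sum_ite_eq,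
      if_pos hbB, ← Finset.mul_sum]
    linarith
  have hunc := unc (⟨0, by omega⟩ : Fin d) hψ E
  have hr4 : 16 * ((r : ℝ) + 1) ^ 4 ≤ n ^ 4 := by
    have h1 : 16 * ((r : ℝ) + 1) ^ 4 = (2 * (r : ℝ) + 2) ^ 4 := by ring
    rw [h1, hn]
    gcongr
    norm_num
  have hXle : X ≤ n ^ 4 * (3 * (1 + v ^ 2 * X + 1 / 64)) := by
    refine hunc.trans ?_
    refine mul_le_mul hr4 hZ (Finset.sum_nonneg fun x _ => sq_nonneg _) (by positivity)
  have hvn : 4096 * v ^ 2 * n ^ 4 * n ^ d ≤ 1 := by
    have h1 : (64 * v) ^ 2 * n ^ (d + 4) = 4096 * v ^ 2 * n ^ 4 * n ^ d := by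
      rw [pow_add]; ring
    rw [← h1]
    exact hvr
  have hvn4 : 4096 * v ^ 2 * n ^ 4 ≤ 1 := by
    have : 0 ≤ 4096 * v ^ 2 * n ^ 4 := by positivity
    exact (le_mul_of_one_le_right this hnd).trans hvn
  have hX4 : X ≤ 4 * n ^ 4 := by
    have h1 : v ^ 2 * n ^ 4 * X ≤ X / 4096 := by
      have : 4096 * v ^ 2 * n ^ 4 * X ≤ 1 * X := mul_le_mul_of_nonneg_right hvn4 hX0
      linarith
    have h2 : 0 < n ^ 4 := by positivity
    have h3 : n ^ 4 * (3 * (1 + v ^ 2 * X + 1 / 64)) =
        3 * n ^ 4 + 3 * (v ^ 2 * n ^ 4 * X) + 3 / 64 * n ^ 4 := by ring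
    rw [h3] at hXle
    linarith
  -- the sum of |ψ|
  have hS1 : (∑ x ∈ B, |ψ x|) ^ 2 ≤ n ^ d * X := by
    have h1 : ∑ x ∈ B, |ψ x| = ∑ x ∈ box b r, |ψ x| := by
      symm
      refine Finset.sum_subset (box_mono b (by omega)) fun x _ hx => ?_
      rw [mem_box] at hx
      rw [hψ x (by omega), abs_zero]
    rw [h1]
    have h2 := sq_sum_le_card_mul_sum_sq (s := box b r) (f := fun x => |ψ x|)
    refine h2.trans ?_
    refine mul_le_mul hcard' ?_ (Finset.sum_nonneg fun x _ => sq_nonneg _) hnd0.le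
    simp only [sq_abs]
    exact Finset.sum_le_sum_of_subset_of_nonneg (box_mono b (by omega))
      fun x _ _ => sq_nonneg _
  set S := ∑ x ∈ B, |ψ x| with hS
  have hS0 : 0 ≤ S := Finset.sum_nonneg fun x _ => abs_nonneg _
  have hvS : v * S ≤ 1 / 32 := by
    have h1 : (v * S) ^ 2 ≤ (1 / 32) ^ 2 := by
      rw [mul_pow]
      have h2 : v ^ 2 * S ^ 2 ≤ v ^ 2 * (n ^ d * (4 * n ^ 4)) := by
        apply mul_le_mul_of_nonneg_left _ (sq_nonneg v)
        exact hS1.trans (mul_le_mul_of_nonneg_left hX4 hnd0.le)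
      have h3 : v ^ 2 * (n ^ d * (4 * n ^ 4)) = 4096 * v ^ 2 * n ^ 4 * n ^ d / 1024 := by ring
      rw [h3] at h2
      have h4 : 4096 * v ^ 2 * n ^ 4 * n ^ d / 1024 ≤ 1 / 1024 :=
        div_le_div_of_nonneg_right hvn (by norm_num)
      exact (h2.trans h4).trans (by norm_num)
    exact (pow_le_pow_iff_left₀ (mul_nonneg hv hS0) (by norm_num) two_ne_zero).1 h1
  -- the plane wave
  set k := Real.arccos (E / (2 * d)) with hk
  have hck : 2 * d * Real.cos k = E := by
    have h1 : |E / (2 * d)| ≤ 1 := by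
      rw [abs_div, abs_of_pos (by positivity : (0 : ℝ) < 2 * d), div_le_one (by positivity)]
      exact hE
    rw [hk, Real.cos_arccos (abs_le.1 h1).1 (abs_le.1 h1).2]
    field_simp
  have hpair : ∑ x ∈ B, pw k b x * f x = 0 := by
    have h1 : ∑ x ∈ B, pw k b x * f x =
        ∑ x ∈ B, E * (pw k b x * ψ x) - ∑ x ∈ B, pw k b x * Lp ψ x := by
      rw [← Finset.sum_sub_distrib]
      refine Finset.sum_congr rfl fun x _ => ?_
      simp only [hf]
      ring
    rw [h1, parts hψ, ← Finset.sum_sub_distrib]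
    refine Finset.sum_eq_zero fun x _ => ?_
    rw [pw_lap, hck]
    ring
  have hfin : (1 : ℝ) ≤ v * S + 1 / 8 := by
    have h1 : ∑ x ∈ B, pw k b x * f x = 1 + ∑ x ∈ B, pw k b x * (V x * ψ x + e x) := by
      have h2 : ∀ x ∈ B, pw k b x * f x = (if b = x then 1 else 0) +
          pw k b x * (V x * ψ x + e x) := by
        intro x _
        have h3 : f x = (if b = x then 1 else 0) + V x * ψ x + e x := by
          simp only [he]
          ring
        rw [h3]
        split_ifs with h4
        · rw [← h4, pw_self]; ring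
        · ring
      rw [Finset.sum_congr rfl h2, Finset.sum_add_distrib, Finset.sum_ite_eq, if_pos hbB]
    rw [hpair] at h1
    have h2 : |∑ x ∈ B, pw k b x * (V x * ψ x + e x)| ≤ v * S + 1 / 8 := by
      calc |∑ x ∈ B, pw k b x * (V x * ψ x + e x)|
          ≤ ∑ x ∈ B, |pw k b x * (V x * ψ x + e x)| := Finset.abs_sum_le_sum_abs _ _
        _ ≤ ∑ x ∈ B, (v * |ψ x| + |e x|) := by
            refine Finset.sum_le_sum fun x _ => ?_
            rw [abs_mul]
            have h3 := pw_le k b x
            have h4 := abs_add_le (V x * ψ x) (e x)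
            have h5 := hVψ x
            have h6 := abs_nonneg (V x * ψ x + e x)
            have h7 := mul_le_mul_of_nonneg_right h3 h6
            rw [one_mul] at h7
            exact h7.trans (h4.trans (add_le_add h5 le_rfl))
        _ = v * S + ∑ x ∈ B, |e x| := by
            rw [Finset.sum_add_distrib, ← Finset.mul_sum]
        _ ≤ _ := by linarith
    have h3 := (abs_le.1 h2).1
    linarith
  linarith

end Pool.Agent.LE.H42F
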